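import Pool.Agent.N332.GK.Defs

set_option autoImplicit false

/-! Leaf G1 of project GK: `k + 1 ≤ ck k` for `6 ≤ k`. -/

namespace Pool.Agent.N331.GK

open Finset Pool.Agent.N332.GK

theorem key_ratio (k : ℕ) (hk : 1 ≤ k) :
    (((k : ℝ) + 2) / (k + 1)) ^ (k + 1) ≤ ((2 * (k : ℝ) + 1) / (2 * k - 1)) ^ k := by
  have hk1 : (1 : ℝ) ≤ k := by exact_mod_cast hk
  have h1 : (((k : ℝ) + 2) / (k + 1)) ^ (k + 1) ≤ Real.exp 1 := by
    have e1 : ((k : ℝ) + 2) / (k + 1) = 1 / ((k : ℝ) + 1) + 1 := by field_simp; ring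
    have h2 : ((k : ℝ) + 2) / (k + 1) ≤ Real.exp (1 / ((k : ℝ) + 1)) := by
      rw [e1]
      exact Real.add_one_le_exp _
    calc (((k : ℝ) + 2) / (k + 1)) ^ (k + 1) ≤ (Real.exp (1 / ((k : ℝ) + 1))) ^ (k + 1) :=
          pow_le_pow_left₀ (by positivity) h2 _
      _ = Real.exp 1 := by
          rw [← Real.exp_nat_mul]
          congr 1
          push_cast
          field_simp
  have h3 : Real.exp 1 ≤ ((2 * (k : ℝ) + 1) / (2 * k - 1)) ^ k := by
    have hpos : (0 : ℝ) < 2 * k - 1 := by linarith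
    have h4 : 1 / (k : ℝ) ≤ Real.log ((2 * (k : ℝ) + 1) / (2 * k - 1)) := by
      have h5 := Real.le_log_one_add_of_nonneg (x := 2 / (2 * (k : ℝ) - 1)) (by positivity)
      have e2 : 1 + 2 / (2 * (k : ℝ) - 1) = (2 * (k : ℝ) + 1) / (2 * k - 1) := by
        field_simp
        ring
      have e3 : 2 * (2 / (2 * (k : ℝ) - 1)) / (2 / (2 * (k : ℝ) - 1) + 2) = 1 / (k : ℝ) := by
        field_simp
        ring
      rw [e2, e3] at h5
      exact h5
    have h6 : Real.exp (1 / (k : ℝ)) ≤ (2 * (k : ℝ) + 1) / (2 * k - 1) := by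
      rw [← Real.le_log_iff_exp_le (by positivity)]
      exact h4
    calc Real.exp 1 = (Real.exp (1 / (k : ℝ))) ^ k := by
          rw [← Real.exp_nat_mul]
          congr 1
          field_simp
      _ ≤ _ := pow_le_pow_left₀ (Real.exp_pos _).le h6 _
  exact h1.trans h3

theorem pow_mul_choose_le (k : ℕ) (hk : 6 ≤ k) :
    ((k : ℝ) + 1) ^ k * ((2 * k).choose k : ℝ) ≤ (2 * (2 * (k : ℝ) - 1)) ^ k := by
  induction k, hk using Nat.le_induction with
  | base => norm_num [Nat.choose]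
  | succ k hk ih =>
    have hk1 : (6 : ℝ) ≤ k := by exact_mod_cast hk
    have hc : ((k : ℝ) + 1) * ((2 * (k + 1)).choose (k + 1) : ℝ) =
        2 * (2 * (k : ℝ) + 1) * ((2 * k).choose k : ℝ) := by
      have := Nat.succ_mul_centralBinom_succ k
      unfold Nat.centralBinom at this
      exact_mod_cast this
    have hr := key_ratio k (by omega)
    have hpos : (0 : ℝ) < 2 * k - 1 := by linarith
    have hC : (0 : ℝ) ≤ ((2 * k).choose k : ℝ) := by positivity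
    have e1 : ((k : ℝ) + 2) ^ (k + 1) = (((k : ℝ) + 2) / (k + 1)) ^ (k + 1) * (k + 1) ^ (k + 1) := by
      rw [div_pow]
      field_simp
    have e2 : ((2 * (k : ℝ) + 1) / (2 * k - 1)) ^ k * (2 * (2 * (k : ℝ) - 1)) ^ k =
        (2 * (2 * (k : ℝ) + 1)) ^ k := by
      rw [← mul_pow]
      congr 1
      field_simp
    have h1 : (((k : ℝ) + 2) / (k + 1)) ^ (k + 1) *
        ((k : ℝ) + 1) ^ k * ((2 * k).choose k : ℝ) ≤ (2 * (2 * (k : ℝ) + 1)) ^ k := by
      rw [← e2, mul_assoc]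
      exact mul_le_mul hr ih (by positivity) (by positivity)
    push_cast
    have e3 : (k : ℝ) + 1 + 1 = k + 2 := by ring
    have e4 : 2 * (2 * ((k : ℝ) + 1) - 1) = 2 * (2 * (k : ℝ) + 1) := by ring
    rw [e3, e4, e1]
    calc (((k : ℝ) + 2) / (k + 1)) ^ (k + 1) * (k + 1) ^ (k + 1) *
          ((2 * (k + 1)).choose (k + 1) : ℝ)
        = (((k : ℝ) + 2) / (k + 1)) ^ (k + 1) * (k + 1) ^ k *
          (((k : ℝ) + 1) * ((2 * (k + 1)).choose (k + 1) : ℝ)) := by ring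
      _ = ((((k : ℝ) + 2) / (k + 1)) ^ (k + 1) * ((k : ℝ) + 1) ^ k * ((2 * k).choose k : ℝ)) *
          (2 * (2 * (k : ℝ) + 1)) := by rw [hc]; ring
      _ ≤ (2 * (2 * (k : ℝ) + 1)) ^ k * (2 * (2 * (k : ℝ) + 1)) :=
          mul_le_mul_of_nonneg_right h1 (by positivity)
      _ = _ := by rw [pow_succ]

/-- G1 -/
theorem ck_ge {k : ℕ} (hk : 6 ≤ k) : (k : ℝ) + 1 ≤ ck k := by
  have h1 := pow_mul_choose_le k hk
  have hC : (0 : ℝ) < ((2 * k).choose k : ℝ) := by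
    exact_mod_cast Nat.choose_pos (by omega)
  have h2 : ((k : ℝ) + 1) ^ k ≤ (2 * (2 * (k : ℝ) - 1)) ^ k / ((2 * k).choose k : ℝ) := by
    rw [le_div_iff₀ hC]
    exact h1
  have h3 := Real.rpow_le_rpow (by positivity) h2 (by positivity : (0:ℝ) ≤ (1:ℝ) / k)
  have h4 : (((k : ℝ) + 1) ^ k) ^ ((1:ℝ) / k) = (k : ℝ) + 1 := by
    rw [one_div]
    exact Real.pow_rpow_inv_natCast (by positivity) (by omega)
  rw [h4] at h3
  exact h3

end Pool.Agent.N331.GK
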