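import Pool.Agent.N332.GK.Defs

set_option autoImplicit false

/-! Leaf G3 of project GK: the exponent `b`. -/

namespace Pool.Agent.N331.GK

open Finset Pool.Agent.N332.GK

theorem log_ge {k : ℕ} (hk : 6 ≤ k) : 5 / 2 * Real.log 2 ≤ Real.log k := by
  have hk' : (6 : ℝ) ≤ k := by exact_mod_cast hk
  have h1 : Real.log 6 ≤ Real.log k := Real.log_le_log (by norm_num) hk'
  have h2 : Real.log ((2:ℝ) ^ 5) ≤ Real.log ((6:ℝ) ^ 2) := Real.log_le_log (by norm_num) (by norm_num)
  rw [Real.log_pow, Real.log_pow] at h2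
  push_cast at h2
  linarith

theorem log_le {k : ℕ} (hk : 6 ≤ k) : Real.log k ≤ 3 * Real.log 2 + (k : ℝ) / 8 - 1 := by
  have hk' : (6 : ℝ) ≤ k := by exact_mod_cast hk
  have h1 : Real.log ((k : ℝ) / 8) ≤ (k : ℝ) / 8 - 1 := Real.log_le_sub_one_of_pos (by positivity)
  rw [Real.log_div (by positivity) (by norm_num)] at h1
  have h2 : Real.log 8 = 3 * Real.log 2 := by
    rw [show (8:ℝ) = 2 ^ 3 by norm_num, Real.log_pow]
    norm_num
  linarith

/-- G3 -/
theorem b_le (HG1 : ∀ {k : ℕ}, 6 ≤ k → (k : ℝ) + 1 ≤ ck k)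
    (HG2 : ∀ {k : ℕ}, 6 ≤ k →
      k * Real.log (ck k) ≤ ((k : ℝ) + 1 / 2) * Real.log k + Real.log 2 - 1 / 2)
    {k n : ℕ} (hk : 6 ≤ k) (hkn : k ≤ n) {b : ℝ} (hb : (n : ℝ) ^ b = ck k) :
    (1 - 1 / (n : ℝ)) * (1 + b) ≤ 2 - 11 / (8 * (k : ℝ)) := by
  have hk' : (6 : ℝ) ≤ k := by exact_mod_cast hk
  have hkn' : (k : ℝ) ≤ n := by exact_mod_cast hkn
  have hk0 : (0 : ℝ) < k := by linarith
  have hn0 : (0 : ℝ) < n := by linarith
  have hln : 0 < Real.log n := Real.log_pos (by linarith)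
  have hck := HG1 hk
  have hlc : 0 < Real.log (ck k) := Real.log_pos (by linarith)
  have hG2 := HG2 hk
  have hbl : b * Real.log n = Real.log (ck k) := by
    rw [← hb, Real.log_rpow hn0]
  have hL1 := log_ge hk
  have hL2 := log_le hk
  have h2a := Real.log_two_gt_d9
  have h2b := Real.log_two_lt_d9
  set l := Real.log k with hl
  set lc := Real.log (ck k) with hlcd
  set ln := Real.log n with hlnd
  set e := 1 / (k : ℝ) with he
  have hke : k * e = 1 := by rw [he]; field_simp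
  have he0 : 0 < e := by positivity
  have he1 : e ≤ 1 / 6 := one_div_le_one_div_of_le (by norm_num) hk'
  set x := (k : ℝ) / n with hx
  have hx0 : 0 < x := by positivity
  have hx1 : x ≤ 1 := by rw [hx, div_le_one hn0]; exact hkn'
  have hd : 1 / (n : ℝ) = e * x := by rw [he, hx]; field_simp
  -- `log n ≥ l + 1 - x`
  have hlnge : l + 1 - x ≤ ln := by
    have h1 := Real.one_sub_inv_le_log_of_pos (x := (n : ℝ) / k) (by positivity)
    rw [Real.log_div (by positivity) (by positivity), inv_div] at h1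
    linarith
  -- bound for `lc`
  have hlcle : lc ≤ l + e * l / 2 + e * (Real.log 2 - 1 / 2) := by
    have h1 : e * (k * lc) ≤ e * (((k : ℝ) + 1 / 2) * l + Real.log 2 - 1 / 2) :=
      mul_le_mul_of_nonneg_left hG2 he0.le
    have h2 : e * (k * lc) = lc := by
      rw [← mul_assoc, mul_comm e, hke, one_mul]
    have h3 : e * (((k : ℝ) + 1 / 2) * l + Real.log 2 - 1 / 2) =
        (k * e) * l + e * l / 2 + e * (Real.log 2 - 1 / 2) := by ring
    rw [h2, h3, hke, one_mul] at h1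
    exact h1
  -- the value at `x = 0`
  have hF0 : 0 ≤ (1 - 11 / 8 * e) * (l + 1) - lc := by
    have h1 : e * (15 / 8 * l + (Real.log 2 + 7 / 8)) ≤ e * k := by
      apply mul_le_mul_of_nonneg_left _ he0.le
      linarith
    rw [mul_comm e (k : ℝ), hke] at h1
    nlinarith
  -- the value at `x = 1`
  have hF1 : 0 ≤ (1 - 3 / 8 * e) * l - (1 - e) * lc := by
    have h1 : (1 - e) * lc ≤ (1 - e) * (l + e * l / 2 + e * (Real.log 2 - 1 / 2)) :=
      mul_le_mul_of_nonneg_left hlcle (by linarith)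
    have h2 : (1 - 3 / 8 * e) * l - (1 - e) * (l + e * l / 2 + e * (Real.log 2 - 1 / 2)) =
        e * (l * (1 / 8 + e / 2) - (1 - e) * (Real.log 2 - 1 / 2)) := by ring
    have h3 : 0 ≤ l * (1 / 8 + e / 2) - (1 - e) * (Real.log 2 - 1 / 2) := by
      have h4 : 0 ≤ l * e := by
        apply mul_nonneg _ he0.le
        linarith
      have h5 : 0 ≤ e * (Real.log 2 - 1 / 2) := mul_nonneg he0.le (by linarith)
      nlinarith
    have h6 := mul_nonneg he0.le h3
    linarith
  have hFx : 0 ≤ (1 - 11 / 8 * e + e * x) * (l + 1 - x) - (1 - e * x) * lc := by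
    have h1 : (1 - 11 / 8 * e + e * x) * (l + 1 - x) - (1 - e * x) * lc =
        (1 - x) * ((1 - 11 / 8 * e) * (l + 1) - lc) +
          x * ((1 - 3 / 8 * e) * l - (1 - e) * lc) + e * (x * (1 - x)) := by ring
    rw [h1]
    have h2 := mul_nonneg (by linarith : 0 ≤ 1 - x) hF0
    have h3 := mul_nonneg hx0.le hF1
    have h4 := mul_nonneg he0.le (mul_nonneg hx0.le (by linarith : 0 ≤ 1 - x))
    linarith
  have hQ : 0 ≤ 1 - 11 / 8 * e + e * x := by
    have := mul_nonneg he0.le hx0.le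
    linarith
  have h7 := mul_le_mul_of_nonneg_left hlnge hQ
  have h8 : (1 - e * x) * lc ≤ (1 - 11 / 8 * e + e * x) * ln := by linarith
  have h9 : 11 / (8 * (k : ℝ)) = 11 / 8 * e := by rw [he]; field_simp
  rw [hd, h9]
  have h10 : (1 - e * x) * (1 + b) * ln ≤ (2 - 11 / 8 * e) * ln := by
    have : (1 - e * x) * (1 + b) * ln = (1 - e * x) * ln + (1 - e * x) * (b * ln) := by ring
    rw [this, hbl]
    linarith
  exact le_of_mul_le_mul_right h10 hln

end Pool.Agent.N331.GK
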