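import Pool.Agent.N332.GK.Defs

set_option autoImplicit false

/-! Leaf G4 of project GK: the parameters. -/

namespace Pool.Agent.N331.GK

open Finset Pool.Agent.N332.GK Pool.Agent.N356.SP

theorem poly_bound {e x : ℝ} (he0 : 0 ≤ e) (he1 : e ≤ 1 / 6) (hx : x = 5 / 2 * e - 55 / 32 * e ^ 2) :
    1 + x + x ^ 2 / 2 + 2 / 9 * x ^ 3 ≤ 5 / 4 * (1 + e) := by
  have h1 : x ≤ 5 / 2 * e := by rw [hx]; nlinarith [sq_nonneg e]
  have h0 : 0 ≤ x := by rw [hx]; nlinarith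
  have h2 : x ^ 2 ≤ 25 / 4 * e ^ 2 - 275 / 32 * e ^ 3 + 3025 / 1024 * e ^ 3 * (1 / 6) := by
    have : x ^ 2 = 25 / 4 * e ^ 2 - 275 / 32 * e ^ 3 + 3025 / 1024 * e ^ 3 * e := by rw [hx]; ring
    rw [this]
    have : e ^ 3 * e ≤ e ^ 3 * (1 / 6) := mul_le_mul_of_nonneg_left he1 (by positivity)
    linarith
  have h3 : x ^ 3 ≤ 125 / 8 * e ^ 3 := by
    calc x ^ 3 ≤ (5 / 2 * e) ^ 3 := pow_le_pow_left₀ h0 h1 3
      _ = 125 / 8 * e ^ 3 := by ring
  rw [hx] at h1 ⊢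
  rw [hx] at h2 h3
  have h4 : e ^ 2 ≤ 1 / 6 * e := by nlinarith
  have h5 : e ^ 3 ≤ 1 / 6 * e ^ 2 := by nlinarith [sq_nonneg e]
  nlinarith

/-- G4 -/
theorem goodk (HG1 : ∀ {k : ℕ}, 6 ≤ k → (k : ℝ) + 1 ≤ ck k)
    (HG3 : ∀ {k n : ℕ}, 6 ≤ k → k ≤ n → ∀ {b : ℝ}, (n : ℝ) ^ b = ck k →
      (1 - 1 / (n : ℝ)) * (1 + b) ≤ 2 - 11 / (8 * (k : ℝ)))
    {k n : ℕ} (hk : 6 ≤ k) (hkn : k ≤ n) {b : ℝ} (hb : (n : ℝ) ^ b = ck k) :
    Good' n b (ck k) ∧ (1 - 1 / (n : ℝ)) * b ≤ 1 - 3 / (8 * (k : ℝ)) ∧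
      (1 + 5 / (4 * (k : ℝ)) * (1 - 1 / (n : ℝ))) ^ (1 + b) ≤ 5 / (4 * (k : ℝ)) * ck k := by
  have hk' : (6 : ℝ) ≤ k := by exact_mod_cast hk
  have hkn' : (k : ℝ) ≤ n := by exact_mod_cast hkn
  have hk0 : (0 : ℝ) < k := by linarith
  have hn0 : (0 : ℝ) < n := by linarith
  have hn1 : (1 : ℝ) < n := by linarith
  have hck := HG1 hk
  have hG3 := HG3 hk hkn hb
  set e := 1 / (k : ℝ) with he
  have he0 : 0 < e := by positivity
  have he1 : e ≤ 1 / 6 := one_div_le_one_div_of_le (by norm_num) hk'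
  have hke : e * k = 1 := by rw [he]; field_simp
  have hbpos : 0 < b := by
    by_contra h
    push Not at h
    have h1 : (n : ℝ) ^ b ≤ 1 := Real.rpow_le_one_of_one_le_of_nonpos hn1.le h
    rw [hb] at h1
    linarith
  have hnk : 1 / (n : ℝ) ≤ e := one_div_le_one_div_of_le hk0 hkn'
  have hw0 : 0 < 1 - 1 / (n : ℝ) := by linarith
  have e8 : 11 / (8 * (k : ℝ)) = 11 / 8 * e := by rw [he]; field_simp
  have e9 : 3 / (8 * (k : ℝ)) = 3 / 8 * e := by rw [he]; field_simp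
  have e10 : 5 / (4 * (k : ℝ)) = 5 / 4 * e := by rw [he]; field_simp
  rw [e8] at hG3
  have hnp : 1 ≤ ((n : ℝ) - 1) * b := by
    by_contra hc
    push Not at hc
    have h1 : (n : ℝ) ^ (((n : ℝ) - 1) * b) < (n : ℝ) ^ (1 : ℝ) :=
      Real.rpow_lt_rpow_of_exponent_lt hn1 hc
    rw [mul_comm, Real.rpow_mul (by positivity), hb, Real.rpow_one] at h1
    obtain ⟨j, rfl⟩ : ∃ j, n = j + 1 := ⟨n - 1, by omega⟩
    have e1 : (((j + 1 : ℕ) : ℝ) - 1) = (j : ℝ) := by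
      push_cast
      ring
    rw [e1, Real.rpow_natCast] at h1
    have h2 : (2 : ℝ) ^ j ≤ ck k ^ j := pow_le_pow_left₀ (by norm_num) (by linarith) j
    have h3 : ((j + 1 : ℕ) : ℝ) ≤ 2 ^ j := by
      have h4 : j + 1 ≤ 2 ^ j := Nat.lt_pow_self (by norm_num)
      exact_mod_cast h4
    linarith
  refine ⟨⟨by linarith, hbpos, hb, hnp, ?_⟩, ?_, ?_⟩
  · -- c2
    have e1 : (1 - 1 / (n : ℝ)) / ((1 - 1 / (n : ℝ)) * b) = 1 / b := by
      rw [div_mul_eq_div_div, div_self hw0.ne']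
    rw [e1, le_div_iff₀ (by positivity)]
    have h1 : (1 + 1 / b) ^ (1 + b) = (1 + 1 / b) * (1 + 1 / b) ^ b := by
      rw [Real.rpow_add (by positivity), Real.rpow_one]
    have h2 : (1 + 1 / b) ^ b ≤ Real.exp 1 := by
      have h3 : 1 + 1 / b ≤ Real.exp (1 / b) := by
        have := Real.add_one_le_exp (1 / b)
        linarith
      calc (1 + 1 / b) ^ b ≤ (Real.exp (1 / b)) ^ b :=
            Real.rpow_le_rpow (by positivity) h3 hbpos.le
        _ = Real.exp 1 := by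
            rw [← Real.exp_mul]
            congr 1
            field_simp
    have h4 := Real.exp_one_lt_d9
    rw [h1]
    calc (1 + 1 / b) * (1 + 1 / b) ^ b * ((1 - 1 / (n : ℝ)) * b)
        = ((1 - 1 / (n : ℝ)) * (1 + b)) * (1 + 1 / b) ^ b := by field_simp; ring
      _ ≤ 2 * Real.exp 1 := by
          apply mul_le_mul _ h2 (by positivity) (by norm_num)
          linarith
      _ ≤ ck k := by linarith
  · rw [e9]
    linarith
  · rw [e10]
    have hq0 : 0 ≤ 5 / 4 * e * (1 - 1 / (n : ℝ)) := by positivity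
    have h1 : 1 + 5 / 4 * e * (1 - 1 / (n : ℝ)) ≤ Real.exp (5 / 4 * e * (1 - 1 / (n : ℝ))) := by
      have := Real.add_one_le_exp (5 / 4 * e * (1 - 1 / (n : ℝ)))
      linarith
    set x := 5 / 2 * e - 55 / 32 * e ^ 2 with hx
    have hx0 : 0 ≤ x := by rw [hx]; nlinarith
    have hx1 : x ≤ 1 := by rw [hx]; nlinarith [sq_nonneg e]
    have h2 : Real.exp x ≤ 1 + x + x ^ 2 / 2 + 2 / 9 * x ^ 3 := by
      have := Real.exp_bound' hx0 hx1 (n := 3) (by norm_num)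
      simp only [Finset.sum_range_succ, Finset.sum_range_zero] at this
      norm_num [Nat.factorial] at this
      linarith
    calc (1 + 5 / 4 * e * (1 - 1 / (n : ℝ))) ^ (1 + b)
        ≤ (Real.exp (5 / 4 * e * (1 - 1 / (n : ℝ)))) ^ (1 + b) :=
          Real.rpow_le_rpow (by positivity) h1 (by linarith)
      _ = Real.exp (5 / 4 * e * ((1 - 1 / (n : ℝ)) * (1 + b))) := by
          rw [← Real.exp_mul]
          congr 1
          ring
      _ ≤ Real.exp x := by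
          apply Real.exp_le_exp.mpr
          have h3 : 5 / 4 * e * ((1 - 1 / (n : ℝ)) * (1 + b)) ≤ 5 / 4 * e * (2 - 11 / 8 * e) :=
            mul_le_mul_of_nonneg_left hG3 (by positivity)
          rw [hx]
          nlinarith
      _ ≤ 1 + x + x ^ 2 / 2 + 2 / 9 * x ^ 3 := h2
      _ ≤ 5 / 4 * (1 + e) := poly_bound he0.le he1 hx
      _ = 5 / 4 * e * ((k : ℝ) + 1) := by
          have : 5 / 4 * e * ((k : ℝ) + 1) = 5 / 4 * (e * k) + 5 / 4 * e := by ring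
          rw [this, hke]
          ring
      _ ≤ 5 / 4 * e * ck k := mul_le_mul_of_nonneg_left hck (by positivity)

end Pool.Agent.N331.GK
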